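import Pool.Agent.Lib.MP_88c759_an.Mink.CK1

/-! The algebraic part of the curvature estimate for `k = 2`, every dimension. -/

set_option maxSynthPendingDepth 3

namespace Pool.Agent.Mink.C

open scoped ContDiff Topology RealInnerProductSpace
open Set Filter

variable {n : ℕ}

/-- third order terms, every `k`: the bad ones are paid by `∑ f_a κ_a ^ 2` -/
theorem third_orderZ (k : ℕ) (hk : 2 ≤ k) {κ : Fin n → ℝ}
    (hκ : Gam Finset.univ k κ) (o : Fin n) (hmax : ∀ i, κ i ≤ κ o)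
    {T : Fin n → Fin n → Fin n → ℝ} (hT : ∀ i l m, T i l m = T l i m ∧ T i l m = T i m l)
    (hT0 : ∀ p a, p ≠ o → κ p = κ o → T o p a = 0)
    (hZ : ∀ a, T o o a ^ 2 ≤ κ o ^ 2 * κ o ^ 2) :
    κ o * (es Finset.univ k κ * Gq Finset.univ k κ (fun p => T p p o)
        + 2 * ∑ p ∈ Finset.univ.erase o, fk k κ p * (T p p o ^ 2 / (κ o - κ p)))
      - κ o ^ 2 * ∑ a, fk k κ a * κ a ^ 2 - κ o * (∑ i, fk k κ i * T i i o) ^ 2 / es Finset.univ k κ
    ≤ κ o * (∑ a, fk k κ a * ∑ p ∈ Finset.univ.erase o, 2 * (T o p a ^ 2 / (κ o - κ p))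
        - ∑ p, ∑ q ∈ Finset.univ.erase p, sk k κ p q * (T p p o * T q q o - T p q o ^ 2))
      - ∑ a, fk k κ a * T o o a ^ 2 := by
  have hS : 0 < es Finset.univ k κ := hκ.pos le_rfl
  have hK : 0 < κ o := hκ.max_pos (by omega) fun i _ => hmax i
  have hf : ∀ a, 0 ≤ fk k κ a := fun a => ((hκ.erase (Finset.mem_univ a)).pos le_rfl).le
  have hs : ∀ p q, q ∈ Finset.univ.erase p → 0 ≤ sk k κ p q := fun p q hq =>
    (((hκ.erase (Finset.mem_univ p)).erase hq).pos (by omega)).le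
  have hd : ∀ p a, 0 ≤ T o p a ^ 2 / (κ o - κ p) := fun p a =>
    div_nonneg (sq_nonneg _) (sub_nonneg.2 (hmax p))
  have e1 : es Finset.univ k κ * Gq Finset.univ k κ (fun p => T p p o) =
      (∑ i, fk k κ i * T i i o) ^ 2 / es Finset.univ k κ -
        ∑ p, ∑ q ∈ Finset.univ.erase p, sk k κ p q * (T p p o * T q q o) := by
    have a1 : e1 Finset.univ k κ (fun p => T p p o) = ∑ i, fk k κ i * T i i o := by
      rw [e1, if_neg (by omega)]
      exact Finset.sum_congr rfl fun i _ => mul_comm _ _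
    have a2 : e2 Finset.univ k κ (fun p => T p p o) =
        ∑ p, ∑ q ∈ Finset.univ.erase p, sk k κ p q * (T p p o * T q q o) := by
      rw [e2, if_neg (by omega)]
      exact Finset.sum_congr rfl fun i _ => Finset.sum_congr rfl fun j _ => mul_comm _ _
    rw [Gq, a1, a2]
    field_simp
  have e2 : ∑ p, ∑ q ∈ Finset.univ.erase p, sk k κ p q * (T p p o * T q q o - T p q o ^ 2) =
      ∑ p, ∑ q ∈ Finset.univ.erase p, sk k κ p q * (T p p o * T q q o) -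
        ∑ p, ∑ q ∈ Finset.univ.erase p, sk k κ p q * T p q o ^ 2 := by
    simp only [mul_sub, Finset.sum_sub_distrib]
  have e3 : ∑ a, fk k κ a * T o o a ^ 2 =
      fk k κ o * T o o o ^ 2 + ∑ p ∈ Finset.univ.erase o, fk k κ p * T o p o ^ 2 := by
    rw [← Finset.add_sum_erase _ _ (Finset.mem_univ o)]
    exact congrArg _ (Finset.sum_congr rfl fun p _ => by rw [(hT o o p).2])
  have h1 : ∑ p ∈ Finset.univ.erase o, (2 * (fk k κ p * (T p p o ^ 2 / (κ o - κ p))) +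
      fk k κ o * (2 * (T o p o ^ 2 / (κ o - κ p)))) ≤
      ∑ a, fk k κ a * ∑ p ∈ Finset.univ.erase o, 2 * (T o p a ^ 2 / (κ o - κ p)) := by
    simp only [Finset.mul_sum]
    rw [Finset.sum_comm]
    refine Finset.sum_le_sum fun p hp => ?_
    have a1 := Finset.sum_le_sum_of_subset_of_nonneg (Finset.subset_univ {p, o})
      (f := fun a => fk k κ a * (2 * (T o p a ^ 2 / (κ o - κ p))))
      fun a _ _ => mul_nonneg (hf a) (mul_nonneg zero_le_two (hd p a))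
    rw [Finset.sum_pair (Finset.ne_of_mem_erase hp), (hT o p p).1, (hT p o p).2] at a1
    linarith
  have h2 : ∑ p ∈ Finset.univ.erase o, 2 * (sk k κ o p * T o p o ^ 2) ≤
      ∑ p, ∑ q ∈ Finset.univ.erase p, sk k κ p q * T p q o ^ 2 := by
    rw [← Finset.add_sum_erase _ _ (Finset.mem_univ o)]
    simp only [two_mul, Finset.sum_add_distrib]
    refine add_le_add le_rfl (Finset.sum_le_sum fun p hp => ?_)
    rw [sk_comm, (hT o p o).1]
    exact Finset.single_le_sum (f := fun q => sk k κ p q * T p q o ^ 2)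
      (fun q hq => mul_nonneg (hs p q hq) (sq_nonneg _))
      (Finset.mem_erase.2 ⟨(Finset.ne_of_mem_erase hp).symm, Finset.mem_univ _⟩)
  have h3 : ∑ p ∈ Finset.univ.erase o, fk k κ p * T o p o ^ 2 ≤
      κ o * ∑ p ∈ Finset.univ.erase o,
        (fk k κ o * (2 * (T o p o ^ 2 / (κ o - κ p))) + 2 * (sk k κ o p * T o p o ^ 2))
      + κ o ^ 2 * ∑ p ∈ Finset.univ.erase o, fk k κ p * κ p ^ 2 := by
    rw [Finset.mul_sum, Finset.mul_sum, ← Finset.sum_add_distrib]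
    refine Finset.sum_le_sum fun p hp => ?_
    have hpo := Finset.ne_of_mem_erase hp
    have b0 : 0 ≤ κ o ^ 2 * (fk k κ p * κ p ^ 2) := mul_nonneg (sq_nonneg _)
      (mul_nonneg (hf p) (sq_nonneg _))
    rcases le_total (κ o - κ p) (2 * κ o) with hl | hl
    swap
    · have b1 : 0 ≤ κ o * (fk k κ o * (2 * (T o p o ^ 2 / (κ o - κ p)))
          + 2 * (sk k κ o p * T o p o ^ 2)) :=
        mul_nonneg hK.le (add_nonneg (mul_nonneg (hf o) (mul_nonneg zero_le_two (hd p o)))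
          (mul_nonneg zero_le_two (mul_nonneg (hs o p hp) (sq_nonneg _))))
      have b2 : κ o ^ 2 ≤ κ p ^ 2 := by nlinarith
      have b3 := (hZ p).trans (mul_le_mul_of_nonneg_left b2 (sq_nonneg (κ o)))
      rw [(hT o o p).2] at b3
      have b4 := mul_le_mul_of_nonneg_left b3 (hf p)
      linarith
    refine le_trans ?_ (le_add_of_nonneg_right b0)
    rcases (hmax p).eq_or_lt with h | h
    · simp [hT0 p o hpo h]
    have a0 : 0 < κ o - κ p := sub_pos.2 h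
    have a1 := fk_sub k hk κ hpo.symm
    have a2 : T o p o ^ 2 = (κ o - κ p) * (T o p o ^ 2 / (κ o - κ p)) := by field_simp
    have a3 := hd p o
    generalize T o p o ^ 2 / (κ o - κ p) = D at a2 a3
    rw [a2]
    have a4 : κ o * (fk k κ o * (2 * D) + 2 * (sk k κ o p * ((κ o - κ p) * D))) =
        fk k κ p * (2 * κ o * D) := by
      rw [show fk k κ p = fk k κ o + (κ o - κ p) * sk k κ o p by linarith]; ring
    rw [a4]
    exact mul_le_mul_of_nonneg_left (mul_le_mul_of_nonneg_right hl a3) (hf p)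
  rw [Finset.sum_add_distrib, ← Finset.mul_sum] at h1
  rw [Finset.sum_add_distrib] at h3
  have e4 : ∑ a, fk k κ a * κ a ^ 2 =
      fk k κ o * κ o ^ 2 + ∑ p ∈ Finset.univ.erase o, fk k κ p * κ p ^ 2 :=
    (Finset.add_sum_erase _ (fun a => fk k κ a * κ a ^ 2) (Finset.mem_univ o)).symm
  rw [e1, e2, e3, e4, mul_div_assoc]
  nlinarith [mul_le_mul_of_nonneg_left h1 hK.le, mul_le_mul_of_nonneg_left h2 hK.le,
    mul_le_mul_of_nonneg_left (hZ o) (hf o)]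

/-- the summed second order condition -/
theorem sumZ (k : ℕ) (hk : 2 ≤ k) {N A w : ℝ} {κ b X g P : Fin n → ℝ}
    {V : Fin n → Fin n → Fin n → ℝ} {z : Fin n → Fin n → ℝ} {o : Fin n} {P2 : ℝ} (hw : 0 < w)
    (hb : w ^ 2 = 1 + ∑ a, b a ^ 2) (hV : ∀ i l m, V i l m = V l i m ∧ V i l m = V i m l)
    (hz : ∀ i a, z i a = z a i) (hκ : Gam Finset.univ k κ) (hmax : ∀ i, κ i ≤ κ o)
    (hS1 : ∀ a, S1 k w κ b V a = P a + κ a / w * g a)
    (hS2 : S2 k w κ b V z o = P2 + ∑ m, V o o m * g m)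
    (h1 : ∀ a, TT w κ b V o o a / κ o + N * (κ a * b a) + A * X a = 0)
    (hZ : ∀ a, TT w κ b V o o a ^ 2 ≤ κ o ^ 2 * κ o ^ 2)
    (hc2 : ∀ a, ∀ c : Fin n → ℝ, (R2 w κ b V z o a + ∑ q ∈ Finset.univ.erase o,
            (4 * c q * TT w κ b V o q a - 2 * c q ^ 2 * (κ o - κ q))) / κ o
          - TT w κ b V o o a ^ 2 / κ o ^ 2 + N * W2 w κ b V a + A * (1 + b a ^ 2) ≤ 0) :
    (∀ p a, p ≠ o → κ p = κ o → TT w κ b V o p a = 0) ∧
    κ o * (es Finset.univ k κ * Gq Finset.univ k κ (fun p => TT w κ b V p p o)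
        + 2 * ∑ p ∈ Finset.univ.erase o, fk k κ p * (TT w κ b V p p o ^ 2 / (κ o - κ p)))
      + κ o ^ 2 * (N * w) * ∑ a, fk k κ a * κ a ^ 2
      + κ o ^ 2 * A * ∑ a, fk k κ a * (1 + b a ^ 2)
    ≤ κ o * (S1 k w κ b V o) ^ 2 / es Finset.univ k κ - κ o * P2
      + κ o ^ 2 * A * ((∑ m, X m * g m) / w) + 2 * κ o ^ 3 * (b o * g o / w ^ 2)
      - κ o ^ 2 * ((∑ l, b l * P l) / w) + κ o ^ 3 * (k * es Finset.univ k κ)
      - κ o ^ 2 * A * (k * es Finset.univ k κ) * ((∑ l, b l * X l) / w)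
      - κ o ^ 2 * N * ∑ l, b l * P l := by
  have hL : 0 < κ o := hκ.max_pos (by omega) fun i _ => hmax i
  have hT0 : ∀ p a, p ≠ o → κ p = κ o → TT w κ b V o p a = 0 := fun p a hp hpo =>
    CK1_T0 (t := fun q => TT w κ b V o q a) (R := R2 w κ b V z o a)
      (Z := -(TT w κ b V o o a ^ 2 / κ o ^ 2) + N * W2 w κ b V a + A * (1 + b a ^ 2)) hp hpo hL
      fun c => by linarith [hc2 a c]
  refine ⟨hT0, ?_⟩
  have h3 := third_orderZ k hk hκ o hmax (TT_sym w κ b hV) hT0 hZ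
  have hs := simons k hk hw κ b hb hV hz o
  have hwi := w_identity k (by omega) hw κ b hV
  have hTa : ∀ a, TT w κ b V o o a = -(κ o * (N * (κ a * b a) + A * X a)) := fun a => by
    have := h1 a
    field_simp at this
    linarith
  have hTb : ∑ l, b l * TT w κ b V o o l
      = -(κ o * (N * ∑ l, b l * (κ l * b l) + A * ∑ l, b l * X l)) := by
    simp only [hTa, Finset.mul_sum, ← Finset.sum_add_distrib, ← Finset.sum_neg_distrib]
    exact Finset.sum_congr rfl fun l _ => by ring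
  have hTg : ∑ m, TT w κ b V o o m * g m
      = -(κ o * (N * ∑ m, κ m * b m * g m + A * ∑ m, X m * g m)) := by
    simp only [hTa, Finset.mul_sum, ← Finset.sum_add_distrib, ← Finset.sum_neg_distrib]
    exact Finset.sum_congr rfl fun l _ => by ring
  have hSb : ∑ l, b l * S1 k w κ b V l = ∑ l, b l * P l + (∑ m, κ m * b m * g m) / w := by
    simp only [hS1, Finset.sum_div, ← Finset.sum_add_distrib]
    exact Finset.sum_congr rfl fun l _ => by ring
  have ha : ∀ a ∈ (Finset.univ : Finset (Fin n)), κ o * (fk k κ a * R2 w κ b V z o a)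
      + κ o * (fk k κ a * ∑ p ∈ Finset.univ.erase o, 2 * (TT w κ b V o p a ^ 2 / (κ o - κ p)))
      - fk k κ a * TT w κ b V o o a ^ 2 + κ o ^ 2 * N * (fk k κ a * W2 w κ b V a)
      + κ o ^ 2 * A * (fk k κ a * (1 + b a ^ 2)) ≤ 0 := fun a _ => by
    have h4 := hc2 a fun q => TT w κ b V o q a / (κ o - κ q)
    simp only [CK1_opt] at h4
    have h5 := mul_nonpos_of_nonneg_of_nonpos
      (mul_nonneg (sq_nonneg (κ o)) (CK1_fk_pos hκ a).le) h4
    refine le_of_eq_of_le ?_ h5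
    field_simp
  have hsum := Finset.sum_nonpos ha
  simp only [Finset.sum_add_distrib, Finset.sum_sub_distrib, ← Finset.mul_sum] at hsum
  have hS1o : ∑ i, fk k κ i * TT w κ b V i i o = S1 k w κ b V o := rfl
  rw [hS1o] at h3
  rw [hTb, hS2, CK1_Vg hw, hTg, hSb] at hs
  rw [hSb] at hwi
  have e1 : ∑ a, fk k κ a * R2 w κ b V z o a = _ := eq_sub_of_add_eq hs
  have e2 : ∑ a, fk k κ a * W2 w κ b V a = _ := eq_sub_of_add_eq hwi
  rw [e1, e2] at hsum
  simp only [← Finset.mul_sum] at h3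
  generalize (∑ a, fk k κ a * (2 * ∑ p ∈ Finset.univ.erase o,
    TT w κ b V o p a ^ 2 / (κ o - κ p))) = U1 at h3 hsum
  generalize (∑ p, ∑ q ∈ Finset.univ.erase p, sk k κ p q *
    (TT w κ b V p p o * TT w κ b V q q o - TT w κ b V p q o ^ 2)) = U2 at h3 hsum
  generalize (∑ a, fk k κ a * κ a ^ 2) = U3 at h3 hsum ⊢
  generalize (∑ a, fk k κ a * (1 + b a ^ 2)) = U4 at h3 hsum ⊢
  generalize (∑ m, X m * g m) = U5 at h3 hsum ⊢
  generalize (∑ l, b l * P l) = U6 at h3 hsum ⊢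
  generalize (∑ l, b l * X l) = U7 at h3 hsum ⊢
  generalize (∑ m, κ m * b m * g m) = U8 at h3 hsum ⊢
  generalize (∑ l, b l * (κ l * b l)) = U9 at h3 hsum ⊢
  generalize (∑ a, fk k κ a * TT w κ b V o o a ^ 2) = U10 at h3 hsum ⊢
  generalize (∑ p ∈ Finset.univ.erase o, fk k κ p * (TT w κ b V p p o ^ 2 / (κ o - κ p))) = U11
    at h3 hsum ⊢
  generalize Gq Finset.univ k κ (fun p => TT w κ b V p p o) = U12 at h3 hsum ⊢
  generalize S1 k w κ b V o = U13 at h3 hsum ⊢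
  refine le_of_sub_nonpos (le_trans ?_ (add_nonpos (sub_nonpos.2 h3) hsum))
  apply le_of_eq
  field_simp
  ring

theorem finalZ {c₀ C₀ k m C₁ A C₂ w L S P2 g P b Xg Pb Xb s F E : ℝ}
    (hc : 0 < c₀) (hC : 0 < C₀) (hk0 : 0 < k) (hn0 : 0 < m)
    (hC₁ : C₁ = 4 * C₀ + k * C₀ + 4 * C₀ ^ 2 / c₀) (hA : A = C₁ + 1)
    (hC₂ : C₂ = A * (m * C₀ ^ 2) * (1 + k) + m * C₀)
    (hw1 : 1 ≤ w) (hL1 : 1 < L) (hLC : C₂ < L) (hS0 : c₀ ≤ S) (hS1 : S ≤ C₀)
    (hP2 : |P2| ≤ C₀ * (1 + L ^ 2)) (hg : |g| ≤ C₀) (hP : |P| ≤ C₀) (hb : |b| ≤ w)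
    (hXg : |Xg| ≤ m * (C₀ * C₀)) (hPb : |Pb| ≤ m * (w * C₀)) (hXb : |Xb| ≤ m * (w * C₀))
    (hs : s = P + L / w * g) (hF : L ≤ F) (hE0 : 0 ≤ E)
    (hsum : L * E + L ^ 2 * A * F
      ≤ L * s ^ 2 / S - L * P2 + L ^ 2 * A * (Xg / w) + 2 * L ^ 3 * (b * g / w ^ 2)
        - L ^ 2 * (Pb / w) + L ^ 3 * (k * S) - L ^ 2 * A * (k * S) * (Xb / w)) :
    False := by
  have hw : 0 < w := one_pos.trans_le hw1
  have hL : 0 < L := one_pos.trans hL1
  have hS : 0 < S := hc.trans_le hS0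
  have hC₁0 : 0 < C₁ := by rw [hC₁]; positivity
  have hA0 : 0 < A := by rw [hA]; positivity
  have hdiv : ∀ {y c : ℝ}, |y| ≤ c * w → |y / w| ≤ c := fun {y c} h => by
    rw [abs_div, abs_of_pos hw, div_le_iff₀ hw]; exact h
  have b1 : L * s ^ 2 / S ≤ L ^ 3 * (4 * C₀ ^ 2 / c₀) := by
    have h1 : |s| ≤ 2 * C₀ * L := by
      have h2 : |L / w * g| ≤ L * C₀ := by
        rw [abs_mul, abs_of_pos (div_pos hL hw)]
        exact mul_le_mul (div_le_self hL.le hw1) hg (abs_nonneg _) hL.le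
      have h3 := abs_add_le P (L / w * g)
      have h4 : C₀ ≤ C₀ * L := le_mul_of_one_le_right hC.le hL1.le
      rw [hs]
      linarith only [h2, h3, h4, hP]
    have h2 : s ^ 2 ≤ (2 * C₀ * L) ^ 2 := sq_le_sq' (abs_le.1 h1).1 (abs_le.1 h1).2
    calc L * s ^ 2 / S ≤ L * (2 * C₀ * L) ^ 2 / c₀ := by gcongr
      _ = _ := by ring
  have b2 : -(L * P2) ≤ L ^ 3 * (2 * C₀) := by
    have h1 : -P2 ≤ C₀ * (2 * L ^ 2) := by
      have h2 := (abs_le.1 hP2).1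
      have h3 : 1 ≤ L ^ 2 := one_le_pow₀ hL1.le
      have h4 := mul_le_mul_of_nonneg_left h3 hC.le
      linarith only [h2, h4]
    have h2 := mul_le_mul_of_nonneg_left h1 hL.le
    linarith only [h2]
  have b3 : L ^ 2 * A * (Xg / w) ≤ L ^ 2 * A * (m * C₀ ^ 2) := by
    have h1 : |Xg / w| ≤ m * C₀ ^ 2 := hdiv (by
      have h0 : m * C₀ ^ 2 ≤ m * C₀ ^ 2 * w := le_mul_of_one_le_right (by positivity) hw1
      linarith only [h0, hXg])
    exact mul_le_mul_of_nonneg_left (abs_le.1 h1).2 (by positivity)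
  have b4 : 2 * L ^ 3 * (b * g / w ^ 2) ≤ 2 * L ^ 3 * C₀ := by
    have h1 : b * g / w ^ 2 ≤ C₀ := by
      rw [div_le_iff₀ (by positivity)]
      have h2 : |b * g| ≤ w * C₀ := by
        rw [abs_mul]; exact mul_le_mul hb hg (abs_nonneg _) hw.le
      have h3 : w * C₀ ≤ w * C₀ * w := le_mul_of_one_le_right (by positivity) hw1
      linarith only [(abs_le.1 h2).2, h3]
    exact mul_le_mul_of_nonneg_left h1 (by positivity)
  have b5 : -(L ^ 2 * (Pb / w)) ≤ L ^ 2 * (m * C₀) := by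
    have h1 : |Pb / w| ≤ m * C₀ := hdiv (by linarith only [hPb])
    have h2 := mul_le_mul_of_nonneg_left (abs_le.1 h1).1 (sq_nonneg L)
    linarith only [h2]
  have b6 : L ^ 3 * (k * S) ≤ L ^ 3 * (k * C₀) := by gcongr
  have b7 : -(L ^ 2 * A * (k * S) * (Xb / w)) ≤ L ^ 2 * A * (k * C₀) * (m * C₀) := by
    have h1 : |Xb / w| ≤ m * C₀ := hdiv (by linarith only [hXb])
    have h2 : L ^ 2 * A * (k * S) * -(Xb / w) ≤ L ^ 2 * A * (k * S) * (m * C₀) :=
      mul_le_mul_of_nonneg_left (by linarith only [(abs_le.1 h1).1]) (by positivity)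
    have h3 : L ^ 2 * A * (k * S) * (m * C₀) ≤ L ^ 2 * A * (k * C₀) * (m * C₀) := by gcongr
    linarith only [h2, h3]
  have hmain : L * E + L ^ 2 * A * F ≤ C₁ * L ^ 3 + C₂ * L ^ 2 := by
    rw [hC₁, hC₂]
    linarith only [hsum, b1, b2, b3, b4, b5, b6, b7]
  have h1 : L ^ 2 * A * L ≤ L ^ 2 * A * F := by gcongr
  have h2 : 0 ≤ L * E := by positivity
  have h3 := mul_lt_mul_of_pos_right hLC (sq_pos_of_pos hL)
  rw [hA] at h1 hmain
  linarith only [h1, h2, h3, hmain]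

/-- the pointwise inequality at an interior maximum of `log κ_max + A |x|² / 2`, case `k = 2` -/
theorem curv_algZ (k : ℕ) (hk : 2 ≤ k) (hkn : k + 1 ≤ n) (h2 : k = 2) (W c₀ C₀ : ℝ)
    (hc : 0 < c₀) : ∃ N A B : ℝ, 0 ≤ N ∧ 0 ≤ A ∧
    ∀ (w : ℝ) (κ b X g P : Fin n → ℝ) (V : Fin n → Fin n → Fin n → ℝ) (z : Fin n → Fin n → ℝ)
      (o : Fin n) (P2 : ℝ), 1 ≤ w → w ≤ W → w ^ 2 = 1 + ∑ a, b a ^ 2 →
      (∀ i l m, V i l m = V l i m ∧ V i l m = V i m l) → (∀ i a, z i a = z a i) →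
      Gam Finset.univ k κ → (∀ i, κ i ≤ κ o) → c₀ ≤ es Finset.univ k κ →
      es Finset.univ k κ ≤ C₀ → (∀ a, |X a| ≤ C₀ ∧ |g a| ≤ C₀ ∧ |P a| ≤ C₀) →
      |P2| ≤ C₀ * (1 + κ o ^ 2) →
      (∀ a, S1 k w κ b V a = P a + κ a / w * g a) →
      S2 k w κ b V z o = P2 + ∑ m, V o o m * g m →
      (∀ a, TT w κ b V o o a / κ o + N * (κ a * b a) + A * X a = 0) →
      (∀ a, ∀ c : Fin n → ℝ, (R2 w κ b V z o a + ∑ q ∈ Finset.univ.erase o,
            (4 * c q * TT w κ b V o q a - 2 * c q ^ 2 * (κ o - κ q))) / κ o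
          - TT w κ b V o o a ^ 2 / κ o ^ 2 + N * W2 w κ b V a + A * (1 + b a ^ 2) ≤ 0) →
      κ o ≤ B := by
  by_cases hC : 0 < C₀
  swap
  · exact ⟨0, 0, 0, le_rfl, le_rfl, fun w κ b X g P V z o P2 _ _ _ _ _ _ _ h1 h2 =>
      absurd (hc.trans_le (h1.trans h2)) hC⟩
  have hk0 : (0 : ℝ) < k := by exact_mod_cast (by omega : 0 < k)
  have hn0 : (0 : ℝ) < n := by exact_mod_cast (by omega : 0 < n)
  have hkn' : (k : ℝ) + 1 ≤ n := by exact_mod_cast hkn
  obtain ⟨C₁, hC₁⟩ : ∃ C₁ : ℝ, C₁ = 4 * C₀ + k * C₀ + 4 * C₀ ^ 2 / c₀ := ⟨_, rfl⟩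
  have hC₁0 : 0 < C₁ := by rw [hC₁]; positivity
  obtain ⟨A, hA⟩ : ∃ A : ℝ, A = C₁ + 1 := ⟨_, rfl⟩
  have hA0 : 0 < A := by rw [hA]; positivity
  obtain ⟨C₂, hC₂⟩ : ∃ C₂ : ℝ, C₂ = A * (n * C₀ ^ 2) * (1 + k) + n * C₀ := ⟨_, rfl⟩
  refine ⟨0, A, max 1 (max (A * C₀) C₂), le_rfl, hA0.le,
    fun w κ b X g P V z o P2 hw1 hwW hb hV hz hκ hmax hS0 hS1' hbd hP2 hS1 hS2 h1 hc2 => ?_⟩
  by_contra hcon
  have hcon' := not_le.1 hcon
  simp only [max_lt_iff] at hcon'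
  obtain ⟨hL1, hLA, hLC⟩ := hcon'
  have hw : 0 < w := by linarith
  have hZ : ∀ a, TT w κ b V o o a ^ 2 ≤ κ o ^ 2 * κ o ^ 2 := fun a => by
    have h3 := h1 a
    have hL : κ o ≠ 0 := by linarith
    have h4 : TT w κ b V o o a = -(κ o * (A * X a)) := by
      field_simp at h3
      linarith
    have h5 : |A * X a| ≤ κ o := by
      rw [abs_mul, abs_of_pos hA0]
      exact (mul_le_mul_of_nonneg_left (hbd a).1 hA0.le).trans hLA.le
    have h6 : (A * X a) ^ 2 ≤ κ o ^ 2 := sq_le_sq' (abs_le.1 h5).1 (abs_le.1 h5).2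
    rw [h4, neg_sq, mul_pow]
    exact mul_le_mul_of_nonneg_left h6 (sq_nonneg _)
  obtain ⟨hT0, hsum⟩ := sumZ k hk hw hb hV hz hκ hmax hS1 hS2 h1 hZ hc2
  have hTs := TT_sym w κ b hV
  have hη : ∀ p, p ≠ o → 0 ≤ TT w κ b V p p o ^ 2 / (κ o - κ p) ∧
      TT w κ b V p p o ^ 2 ≤ TT w κ b V p p o ^ 2 / (κ o - κ p) * (κ o - κ p) := fun p hp => by
    refine ⟨div_nonneg (sq_nonneg _) (sub_nonneg.2 (hmax p)), ?_⟩
    by_cases h0 : κ o - κ p = 0
    · have h3 : TT w κ b V p p o = 0 := by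
        rw [(hTs p p o).2, (hTs p o p).1]
        exact hT0 p p hp (by linarith)
      simp [h3]
    · rw [div_mul_cancel₀ _ h0]
  have hf := CK1_fk_pos hκ
  have hSpos : 0 < es Finset.univ k κ := hc.trans_le hS0
  have hE0 : 0 ≤ es Finset.univ k κ * Gq Finset.univ k κ (fun p => TT w κ b V p p o)
      + 2 * ∑ p ∈ Finset.univ.erase o, fk k κ p * (TT w κ b V p p o ^ 2 / (κ o - κ p)) :=
    add_nonneg (mul_nonneg hSpos.le (Gq_nonneg hκ _)) (mul_nonneg zero_le_two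
      (Finset.sum_nonneg fun p hp => mul_nonneg (hf p).le (hη p (Finset.mem_erase.1 hp).1).1))
  have hbw : ∀ a, |b a| ≤ w := fun a => by
    refine abs_le_of_sq_le_sq' ?_ hw.le |> abs_le.2
    have := Finset.single_le_sum (f := fun a => b a ^ 2) (fun i _ => sq_nonneg (b i))
      (Finset.mem_univ a)
    linarith
  have hF : es Finset.univ (k - 1) κ ≤ ∑ a, fk k κ a * (1 + b a ^ 2) := by
    have h3 : ∑ a, fk k κ a ≤ ∑ a, fk k κ a * (1 + b a ^ 2) :=
      Finset.sum_le_sum fun a _ => le_mul_of_one_le_right (hf a).le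
        (le_add_of_nonneg_right (sq_nonneg (b a)))
    rw [sum_fk k (by omega)] at h3
    have h4 := hκ.pos (j := k - 1) (by omega)
    nlinarith only [h3, h4, hkn']
  have hσ : κ o ≤ es Finset.univ (k - 1) κ := by
    subst h2
    have h3 := es_erase (Finset.mem_univ o) 0 κ
    have h4 := hf o
    simp only [fk, es_zero] at h3 h4
    norm_num at h3 h4 ⊢
    linarith
  have hXg : |∑ m, X m * g m| ≤ n * (C₀ * C₀) :=
    CK1_abs_sum (fun a => (hbd a).1) fun a => (hbd a).2.1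
  have hbP : |∑ l, b l * P l| ≤ n * (w * C₀) := CK1_abs_sum hbw fun a => (hbd a).2.2
  have hbX : |∑ l, b l * X l| ≤ n * (w * C₀) := CK1_abs_sum hbw fun a => (hbd a).1
  simp only [zero_mul, mul_zero, add_zero, sub_zero] at hsum
  exact finalZ hc hC hk0 hn0 hC₁ hA hC₂ hw1 hL1 hLC hS0 hS1' hP2 (hbd o).2.1 (hbd o).2.2 (hbw o)
    hXg hbP hbX (hS1 o) (hσ.trans hF) hE0 hsum

end Pool.Agent.Mink.C
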