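import Pool.Agent.Lib.MP_88c759_an.Half.H1
import Pool.Agent.Lib.MP_88c759_an.Half.Z1
import Pool.Agent.Lib.MP_88c759_an.Mink.ATC

/-! The a priori estimates in the range `2k ≥ n` or `k = 2`. -/

set_option maxSynthPendingDepth 3

namespace Pool.Agent.Mink.C

open scoped ContDiff Topology RealInnerProductSpace
open Set Filter

variable {n : ℕ}

variable {Ω : Set (E n)} {ρ : E n → ℝ}

/-- global curvature estimate for `2k ≥ n` or `k = 2` -/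
theorem c2_intH (h : Dom Ω ρ) (k : ℕ) (hk : 2 ≤ k) (hkn : k + 1 ≤ n) (h2 : n ≤ 2 * k ∨ k = 2)
    (W M c₀ C₀ L₀ : ℝ) (hc : 0 < c₀) :
    ∃ L : ℝ, ∀ (ψ : B1 n × ℝ × E n → ℝ) (φ u : E n → ℝ), PsiB Ω ψ M c₀ C₀ → SolO k Ω ψ φ u →
      (∀ x ∈ closure Ω, |u x| ≤ M) → (∀ x ∈ closure Ω, Wp (D1 (closure Ω) u x) ≤ W) →
      (∀ x ∈ frontier Ω, ‖D2 (closure Ω) u x‖ ≤ L₀) →
      ∀ x ∈ closure Ω, ‖D2 (closure Ω) u x‖ ≤ L := by
  obtain ⟨D, hD, hDx⟩ := h.exists_bound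
  obtain ⟨N, A, B, hN, hA, H⟩ := h2.elim
    (fun h2 => curv_algH k hk hkn h2 W c₀ (C₀ * W ^ 2 + C₀ * W + C₀ + D * W) hc)
    (fun h2 => curv_algZ k hk hkn h2 W c₀ (C₀ * W ^ 2 + C₀ * W + C₀ + D * W) hc)
  refine ⟨n * (n * (max (max B (W ^ 3 * L₀)) 0 * Real.exp (N * W + A / 2 * D ^ 2))),
    fun ψ φ u hψ hu hM hW hL => ?_⟩
  have hp : ∀ x ∈ closure Ω, ‖D1 (closure Ω) u x‖ < 1 := fun x hx => (hu.adm x hx).1
  obtain ⟨x₀, hx₀, ξ₀, hξ₀, hm⟩ := CK2_max h (by omega) hu.c2 hp N A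
  have hW1 : 1 ≤ W := (one_le_Wp (hp _ hx₀)).trans (hW _ hx₀)
  have hW0 : 0 ≤ W := zero_le_one.trans hW1
  have key : CK2_ray (D1 (closure Ω) u x₀) (D2 (closure Ω) u x₀) ξ₀ ≤ max B (W ^ 3 * L₀) := by
    obtain ⟨e, κ, hd⟩ := exists_diag (hp _ hx₀) (h.sym_D2 hu.c2 hx₀)
    rcases h.mem_or hx₀ with hx | hx
    · have : Nonempty (Fin n) := ⟨⟨0, by omega⟩⟩
      obtain ⟨o, ho⟩ := Finite.exists_max κ
      have hle := CK2_ray_le hd (hp _ hx₀) ho hξ₀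
      refine hle.trans (le_max_of_le_left ?_)
      have hw := hW _ hx₀
      have hm' := fun y hy ξ hξ => (hm y (subset_closure hy) ξ hξ).trans
        (mul_le_mul_of_nonneg_right hle (Real.exp_pos _).le)
      rw [h.D1_eq u hx, h.D2_eq u hx] at hd
      rw [h.D1_eq u hx] at hw hm'
      have hp0 : ‖d1 u x₀‖ < 1 := h.D1_eq u hx ▸ hp _ hx₀
      obtain ⟨s1, s2, s3, s4, s5⟩ := hψ x₀ hx₀ (u x₀) (hM _ hx₀) (d1 u x₀) hp0.le
      obtain ⟨-, t2, t3, t4, t5⟩ := hu.diff_eq h hk hx s1 hd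
      have hκ : 0 < κ o := t3.max_pos (by omega) fun i _ => ho i
      have hC : 0 ≤ C₀ := (norm_nonneg _).trans s4
      have hc1 : 0 ≤ C₀ * W ^ 2 := by positivity
      have hc2 : 0 ≤ C₀ * W := by positivity
      have hc3 : 0 ≤ D * W := by positivity
      have cond := CK2_cond h hx t2 hp0 hd o hκ (N := N) (A := A) fun y hy ξ hξ => by
        rw [← h.D1_eq u hy, ← h.D2_eq u hy]
        exact hm' y hy ξ hξ
      have hw1 := one_le_Wp hp0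
      refine H _ κ (fun i => d1 u x₀ (e i)) (fun a => ⟪x₀, e a⟫)
        (fun a => fderiv ℝ ψ (d1 u x₀, u x₀, x₀) (gfl (d1 u x₀) (e a), 0, 0))
        (fun a => fderiv ℝ ψ (d1 u x₀, u x₀, x₀) (0, d1 u x₀ (e a), e a)) (V3 u x₀ e) (z4 u x₀ e) o
        _ hw1 hw ?_ (V3_sym (t2.of_le (by norm_num)) e) (z4_sym t2 e) t3 ho (t4 ▸ s2)
        (by linarith) (fun a => ⟨?_, ?_, ?_⟩) ?_ (fun a => (t5 a).1) (t5 o).2
        (fun a => (cond a 0).1) (fun a c => (cond a c).2)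
      · exact hd.1.sum_b_sq hp0
      · have := (abs_real_inner_le_norm x₀ (e a)).trans
          (mul_le_mul (hDx _ hx₀) ((hd.1.norm_le hp0 a).1.trans hw) (norm_nonneg _) hD.le)
        linarith
      · have := (fderiv ℝ ψ (d1 u x₀, u x₀, x₀)).le_of_opNorm_le_of_le s4
          (CK2_norm (z := 0) (x := 0) (hd.1.norm_gfl_le hp0 a) (by simp) (by simp))
        rw [Real.norm_eq_abs] at this
        linarith
      · have := (fderiv ℝ ψ (d1 u x₀, u x₀, x₀)).le_of_opNorm_le_of_le s4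
          (CK2_norm (p := 0) (by simpa using hW0) ((hd.1.norm_le hp0 a).2.trans hw)
            ((hd.1.norm_le hp0 a).1.trans hw))
        rw [Real.norm_eq_abs] at this
        linarith
      · refine (CK2_P2 _ _ _ _ s4 s5 hw1 hW1 hκ (CK2_norm ?_
          (le_max_of_le_right ((hd.1.norm_le hp0 o).2.trans hw))
          (le_max_of_le_right ((hd.1.norm_le hp0 o).1.trans hw)))
          (CK2_norm (by simp) (by simp) (by simp))).trans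
          (mul_le_mul_of_nonneg_right (by linarith) (by positivity))
        rw [norm_smul, Real.norm_of_nonneg (by positivity)]
        exact le_max_of_le_left ((mul_le_of_le_one_right (by positivity)
          (hd.1.norm_gfl_le hp0 o)).trans (div_le_self hκ.le hw1))
    · refine le_max_of_le_right (CK2_ray_le hd (hp _ hx₀) (fun a => ?_) hξ₀)
      refine (le_abs_self _).trans ((hd.abs_le (hp _ hx₀) a).trans ?_)
      exact mul_le_mul (pow_le_pow_left₀ (Wp_pos (hp _ hx₀)).le (hW _ hx₀) 3) (hL _ hx)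
        (norm_nonneg _) (by positivity)
  set Λ := max (max B (W ^ 3 * L₀)) 0 * Real.exp (N * W + A / 2 * D ^ 2) with hΛ
  have hΛ0 : 0 ≤ Λ := mul_nonneg (le_max_right _ _) (Real.exp_pos _).le
  have hmΛ : CK2_ray (D1 (closure Ω) u x₀) (D2 (closure Ω) u x₀) ξ₀ *
      Real.exp (CK2_wt N A (D1 (closure Ω) u x₀) x₀) ≤ Λ := by
    refine (mul_le_mul_of_nonneg_right (le_max_of_le_left key) (Real.exp_pos _).le).trans
      (mul_le_mul_of_nonneg_left (Real.exp_le_exp.2 ?_) (le_max_right _ _))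
    rw [CK2_wt, real_inner_self_eq_norm_sq]
    exact add_le_add (mul_le_mul_of_nonneg_left (hW _ hx₀) hN) (mul_le_mul_of_nonneg_left
      (pow_le_pow_left₀ (norm_nonneg _) (hDx _ hx₀) 2) (by positivity))
  intro x hx
  obtain ⟨e, κ, hd⟩ := exists_diag (hp _ hx) (h.sym_D2 hu.c2 hx)
  have hκ : ∀ a, κ a ≤ Λ := fun a => by
    rcases le_total (κ a) 0 with h0 | h0
    · exact h0.trans hΛ0
    · have h1 := (hm x hx (e a) (hd.1.linearIndependent.ne_zero a)).trans hmΛ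
      rw [CK2_ray_eq hd] at h1
      refine le_trans (le_mul_of_one_le_right h0 (Real.one_le_exp ?_)) h1
      exact add_nonneg (mul_nonneg hN (Wp_pos (hp _ hx)).le)
        (mul_nonneg (by positivity) real_inner_self_nonneg)
  refine hd.norm_le (hp _ hx) (by positivity) fun a => ?_
  have h1 := ((hd.adm_iff (hp _ hx) k).1 (hu.adm x hx)).lower (by omega) (fun i _ => hκ i)
    (Finset.mem_univ a)
  rw [Finset.card_univ, Fintype.card_fin] at h1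
  have h3 : (2 : ℝ) ≤ k := by exact_mod_cast hk
  have h4 : (k : ℝ) + 1 ≤ n := by exact_mod_cast hkn
  refine abs_le.2 ⟨?_, (hκ a).trans (le_mul_of_one_le_left hΛ0 (by linarith))⟩
  rcases le_total (κ a) 0 with h0 | h0
  · nlinarith
  · nlinarith

/-- global a priori estimate -/
theorem apriori0H (h : Dom Ω ρ) (k : ℕ) (hk : 2 ≤ k) (hkn : k + 1 ≤ n) (h2 : n ≤ 2 * k ∨ k = 2) {c₁ : ℝ}
    (hc₁ : 0 < c₁) (hR : Rk k Ω ρ c₁) (M c₀ C₀ θ : ℝ) (hc : 0 < c₀) (h0 : 0 < θ) (h1 : θ < 1) :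
    ∃ W L : ℝ, 1 ≤ W ∧ ∀ (ψ : B1 n × ℝ × E n → ℝ) (φ ub u : E n → ℝ), PsiB Ω ψ M c₀ C₀ → PhiB Ω φ C₀ →
      ContDiffOn ℝ 2 ub (closure Ω) → (∀ x ∈ closure Ω, ‖D1 (closure Ω) ub x‖ ≤ 1 - θ) →
      (∀ x ∈ frontier Ω, ub x = φ x) → (∀ x ∈ closure Ω, ub x ≤ u x) →
      SolO k Ω ψ φ u → (∀ x ∈ closure Ω, |u x| ≤ M) →
      ∀ x ∈ closure Ω, Wp (D1 (closure Ω) u x) ≤ W ∧ ‖D2 (closure Ω) u x‖ ≤ L := by
  obtain ⟨θ₁, hθ0, hθ1, hgb⟩ := grad_bdry h θ C₀ h0 h1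
  obtain ⟨W, hW, hgi⟩ := grad_int h k hk M c₀ C₀ (Real.sqrt θ₁)⁻¹ hc
  obtain ⟨L₀, hcb⟩ := c2_bdry h k hk (by omega) hc₁ hR W M c₀ C₀ hc
  obtain ⟨L, hci⟩ := c2_intH h k hk hkn h2 W M c₀ C₀ L₀ hc
  refine ⟨W, L, hW, fun ψ φ ub u hψ hφ hub hub1 hubb hle hu hM x hx => ?_⟩
  have hadm : ∀ x ∈ Ω, Adm 1 (d1 u x) (d2 u x) := fun x hx => by
    have h3 := hu.adm x (subset_closure hx)
    rw [h.D1_eq u hx, h.D2_eq u hx] at h3
    exact ⟨h3.1, fun j hj1 hj2 => h3.2 j hj1 (by omega)⟩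
  have hb := hgb φ ub u hφ hub hub1 hubb hu.c2 hadm hu.bd hle
  have hW' := hgi ψ φ u hψ hu hM fun y hy => Wp_le_of_norm_le hθ0 hθ1 (hb y hy)
  exact ⟨hW' x hx, hci ψ φ u hψ hu hM hW' (hcb ψ φ u hψ hφ hu hM hW') x hx⟩

end Pool.Agent.Mink.C

namespace Pool.Agent.Mink

open scoped ContDiff
open Set

theorem aprioriH {n k : ℕ} (hk : 2 ≤ k) (hkn : k ≤ n - 1) (h2k : n ≤ 2 * k ∨ k = 2)
    {Ω : Set (E n)} {ρ : E n → ℝ} (hΩ : Dom k Ω ρ) (R M δ : ℝ) (hδ : 0 < δ) :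
    ∃ C θ : ℝ, θ < 1 ∧ ∀ (ψ : B1 n × ℝ × E n → ℝ) (φ ub u : E n → ℝ), Apr k Ω R M δ ψ φ ub u →
      ∀ x ∈ closure Ω, ‖D1 (closure Ω) u x‖ ≤ θ ∧ ‖D2 (closure Ω) u x‖ ≤ C := by
  have h := C.dom_of_iface hΩ
  obtain ⟨c₁, hc₁, hR⟩ := C.exists_rk hk hΩ
  obtain ⟨W, L, hW, hap⟩ := C.apriori0H h k hk (by omega) h2k hc₁ hR R δ M (min δ (1 / 2)) hδ
    (lt_min hδ (by norm_num)) ((min_le_right _ _).trans_lt (by norm_num))
  have hW0 : 0 < (2 * W ^ 2)⁻¹ := by positivity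
  refine ⟨L, 1 - (2 * W ^ 2)⁻¹, by linarith, fun ψ φ ub u ha x hx => ?_⟩
  have hψ : C.PsiB Ω ψ R δ M := fun x hx z hz p hp =>
    ⟨ha.psi_c _ ⟨hp, hz, hx⟩, ha.psi_b _ ⟨hp, hz, hx⟩⟩
  have h3 := hap ψ φ ub u hψ (C.phiB_of_iter ha.phi_c ha.phi_b) ha.ub_c
    (fun y hy => (ha.ub_b y hy).2.1.trans (by linarith [min_le_left δ (1 / 2)])) ha.ub_bd
    (fun y hy => (ha.u_b y hy).2) ⟨ha.u_c2, ha.u_c4, ha.u_adm, ha.u_eq, ha.u_bd⟩
    (fun y hy => (ha.u_b y hy).1) x hx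
  exact ⟨(C.norm_le_of_Wp_le (ha.u_adm x hx).1 h3.1).2, h3.2⟩

end Pool.Agent.Mink
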