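import Pool.Agent.Lib.MP_88c759_an.Half.H2
import Pool.Agent.Lib.MP_88c759_an.Mink.TMain2

/-! Assembly of the main theorem in the range `2k ≥ n` or `k = 2`. -/

set_option maxSynthPendingDepth 3

namespace Pool.Agent.Mink.T

open scoped ContDiff Topology
open Set Filter

variable {n k : ℕ} {Ω : Set (E n)}

/-- existence, regularity and uniqueness in the working definitions -/
theorem main_workH (hk : 2 ≤ k) (hkn : k ≤ n - 1) (h2k : n ≤ 2 * k ∨ k = 2) (hΩ : Nice Ω)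
    {Φ Ψ : E n → E n} (hch : Chart Ω Φ Ψ) {ρ : E n → ℝ} (hD : Dom k Ω ρ)
    {U : Set (B1 n × ℝ × E n)} (hU : IsOpen U)
    (hsub : ∀ q : B1 n × ℝ × E n, ‖q.1‖ ≤ 1 → q.2.2 ∈ closure Ω → q ∈ U)
    {ψ : B1 n × ℝ × E n → ℝ} (hψ : ContDiffOn ℝ ∞ ψ U)
    (hpos : ∀ q : B1 n × ℝ × E n, ‖q.1‖ ≤ 1 → q.2.2 ∈ closure Ω → 0 < ψ q)
    (hmono : ∀ q : B1 n × ℝ × E n, ‖q.1‖ ≤ 1 → q.2.2 ∈ closure Ω → 0 ≤ fderiv ℝ ψ q (0, 1, 0))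
    {ub φ₁ : E n → ℝ} (hub : ContDiffOn ℝ 2 ub (closure Ω))
    (hs : ∀ x ∈ closure Ω, C.Adm k (D1 (closure Ω) ub x) (D2 (closure Ω) ub x) ∧
      ψ (D1 (closure Ω) ub x, ub x, x) ≤ C.SS k (D1 (closure Ω) ub x) (D2 (closure Ω) ub x))
    (hφ : ContDiff ℝ 4 φ₁) (hb : ∀ x ∈ frontier Ω, ub x = φ₁ x) :
    ∃ u : E n → ℝ, ContDiffOn ℝ 2 u (closure Ω) ∧
      (∀ x ∈ closure Ω, C.Adm k (D1 (closure Ω) u x) (D2 (closure Ω) u x) ∧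
        C.SS k (D1 (closure Ω) u x) (D2 (closure Ω) u x) = ψ (D1 (closure Ω) u x, u x, x)) ∧
      (∀ x ∈ frontier Ω, u x = φ₁ x) ∧ (∀ α : ℝ, 0 < α → α < 1 → C3a (closure Ω) α u) ∧
      ∀ v : E n → ℝ, ContDiffOn ℝ 2 v (closure Ω) →
        (∀ x ∈ Ω, C.Adm k (D1 (closure Ω) v x) (D2 (closure Ω) v x) ∧
          C.SS k (D1 (closure Ω) v x) (D2 (closure Ω) v x) = ψ (D1 (closure Ω) v x, v x, x)) →
        (∀ x ∈ frontier Ω, v x = φ₁ x) → EqOn v u (closure Ω) := by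
  have hn : 0 < n := by omega
  have hk1 : 1 ≤ k := by omega
  have hkn' : k ≤ n := by omega
  obtain ⟨V, χ, v₀, hR, hχ1, hp⟩ := exists_path hk1 hΩ hU hsub hψ hpos hmono hub hs
  obtain ⟨R, M, δ, hδ, hapr⟩ := exists_apr hn hk1 hkn' hΩ hR hp hφ hb
  obtain ⟨C₀, θ, hθ, hest⟩ := aprioriH hk hkn h2k hD R M δ hδ
  obtain ⟨K, hK, hKA, hmem⟩ := exists_compact (k := k) hkn' hΩ hR C₀ θ R δ hθ hδ
  have hF := famOn_GG hk1 hkn' hR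
  have h01 : (0:ℝ) ∈ Icc (0:ℝ) 1 := ⟨le_rfl, zero_le_one⟩
  have h11 : (1:ℝ) ∈ Icc (0:ℝ) 1 := ⟨zero_le_one, le_rfl⟩
  have hv4 : ContDiff ℝ 4 v₀ := hp.v0.of_le (by norm_cast)
  have hmix0 : mix 0 v₀ ub = v₀ := by funext x; simp [mix]
  have hu₀ : SolOn Ω (AA k V χ) (GG k χ) 0 v₀ v₀ := by
    have hmemA : ∀ x ∈ closure Ω, ((0:ℝ), jet (closure Ω) v₀ x) ∈ AA k V χ := fun x hx =>
      (mem_AA hR h01 hx).2 (by simpa [hmix0] using hp.adm 0 h01 x hx)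
    exact ⟨(hv4.of_le (by norm_num)).contDiffOn, hv4.contDiffOn, hmemA,
      fun x hx => (GG_eq_zero_iff hk1 (hmemA x hx)).2 (hp.start x hx), fun _ _ => rfl⟩
  obtain ⟨u, hu, hreg⟩ := continuity_dom hn hΩ hch hF hv4 hφ hK hKA (fun t ht w hw x hx => by
    have ha := hapr t ht w hw
    obtain ⟨e1, e2⟩ := hest _ _ _ _ ha x hx
    have hW : (D1 (closure Ω) w x, w x, x) ∈ W Ω R := ⟨e1.trans hθ.le, (ha.u_b x hx).1, hx⟩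
    refine hmem t ht _ _ _ x hx (sym_D2 hΩ.ud hw.c2 hx (hΩ.cl_int hx)) e2 e1 (ha.u_b x hx).1
      (ha.u_adm x hx) ?_
    rw [ha.u_eq x hx]
    exact (ha.psi_b _ hW).1) hu₀ (hv4.of_le (by norm_num)).contDiffOn
  have hz : ∀ (r : B2 n) (p : B1 n) (z z' : ℝ), ∀ x ∈ closure Ω,
      ((1:ℝ), r, p, z, x) ∈ AA k V χ → ((1:ℝ), r, p, z', x) ∈ AA k V χ :=
    fun r p z z' x hx h => (mem_AA hR h11 hx).2 ((mem_AA hR h11 hx).1 h)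
  refine ⟨u, hu.c2, fun x hx => ⟨(hu.mem x hx).1, ?_⟩, hu.bd, hreg, fun v hv hvs hvb x hx => ?_⟩
  · rw [← hχ1]
    exact (GG_eq_zero_iff hk1 (hu.mem x hx)).1 (hu.eq x hx)
  · have hv' : ∀ y ∈ Ω, ((1:ℝ), jet (closure Ω) v y) ∈ AA k V χ ∧
        GG k χ ((1:ℝ), jet (closure Ω) v y) = 0 := fun y hy => by
      have hm : ((1:ℝ), jet (closure Ω) v y) ∈ AA k V χ :=
        (mem_AA hR h11 (subset_closure hy)).2 (hvs y hy).1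
      refine ⟨hm, (GG_eq_zero_iff hk1 hm).2 ?_⟩
      rw [hχ1]
      exact (hvs y hy).2
    refine le_antisymm
      (comparison hn hΩ hF h11 hz hv hu.c2 (fun y hy => ⟨(hv' y hy).1, (hv' y hy).2.ge⟩)
        (fun y hy => ⟨hu.mem y (subset_closure hy), (hu.eq y (subset_closure hy)).le⟩)
        (fun y hy => by rw [hvb y hy, hu.bd y hy]) x hx)
      (comparison hn hΩ hF h11 hz hu.c2 hv
        (fun y hy => ⟨hu.mem y (subset_closure hy), (hu.eq y (subset_closure hy)).ge⟩)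
        (fun y hy => ⟨(hv' y hy).1, (hv' y hy).2.le⟩)
        (fun y hy => by rw [hvb y hy, hu.bd y hy]) x hx)

open Q in
/-- The statement with a right hand side that is smooth near the closed product. -/
def MainH : Prop :=
  ∀ (n k : ℕ), 2 ≤ k → k ≤ n - 1 → (n ≤ 2 * k ∨ k = 2) →
  ∀ (Ω : Set (Rn n)), IsSmoothDomain Ω → Convex ℝ Ω →
    (∀ x₀ ∈ frontier Ω, ∃ κ, IsBdryCurv Ω x₀ κ ∧ InGamma (k - 1) κ) →
  ∀ (ψ : Rn n × ℝ × Rn n → ℝ) (U : Set (Rn n × ℝ × Rn n)), IsOpen U →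
    closure Ω ×ˢ univ ×ˢ Metric.closedBall 0 1 ⊆ U → ContDiffOn ℝ ∞ ψ U →
    (∀ x ∈ closure Ω, ∀ z p, ‖p‖ ≤ 1 → 0 < ψ (x, z, p) ∧ 0 ≤ deriv (fun s => ψ (x, s, p)) z) →
  ∀ (φ : Rn n → ℝ), ContDiffOn ℝ 4 φ (closure Ω) → Spacelike Ω φ →
  ∀ (ub : Rn n → ℝ), IsSub k Ω ψ φ ub →
    ∃ u : Rn n → ℝ, IsSol k Ω ψ φ u ∧
      (∀ x ∈ closure Ω, ∃ κ, IsCurv Ω u x κ ∧ InGamma k κ) ∧
      (∀ α : ℝ, 0 < α → α < 1 → HolderC3 Ω α u) ∧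
      ∀ v, IsSol k Ω ψ φ v → EqOn v u (closure Ω)

theorem mainH : MainH := by
  intro n k hk hkn h2k Ω hΩs hconv hadm ψ U hU hsub hψ hpm φ hφ _ ub hub
  have hΩ : Nice Ω := ⟨hΩs.1, hconv, hΩs.2.1.nonempty, hΩs.2.2.1⟩
  have hkn' : k ≤ n := by omega
  obtain ⟨Φ, Ψ, hch⟩ := exists_chart hΩ hΩs.2.2.2
  obtain ⟨ρ, hD⟩ := exists_dom hΩ hch hadm
  obtain ⟨φ₁, hφ₁, hφe⟩ := exists_phi hch hφ
  have hU' : IsOpen (sw ⁻¹' U) := hU.preimage contDiff_sw.continuous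
  have hsub' : ∀ q : B1 n × ℝ × E n, ‖q.1‖ ≤ 1 → q.2.2 ∈ closure Ω → q ∈ sw ⁻¹' U :=
    fun q h1 h2 => hsub ⟨h2, mem_univ _, mem_closedBall_zero_iff.2 (by
      show ‖C.shp q.1‖ ≤ 1
      rwa [norm_shp])⟩
  have hψ' : ContDiffOn ℝ ∞ (ψ ∘ sw) (sw ⁻¹' U) :=
    hψ.comp contDiff_sw.contDiffOn (fun _ h => h)
  have hpos' : ∀ q : B1 n × ℝ × E n, ‖q.1‖ ≤ 1 → q.2.2 ∈ closure Ω → 0 < (ψ ∘ sw) q :=
    fun q h1 h2 => (hpm _ h2 _ _ (by rwa [norm_shp])).1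
  have hmono' : ∀ q : B1 n × ℝ × E n, ‖q.1‖ ≤ 1 → q.2.2 ∈ closure Ω →
      0 ≤ fderiv ℝ (ψ ∘ sw) q (0, 1, 0) := fun q h1 h2 => by
    have h3 := (hpm _ h2 q.2.1 (C.shp q.1) (by rwa [norm_shp])).2
    have hd : DifferentiableAt ℝ (ψ ∘ sw) q :=
      (hψ'.contDiffAt (hU'.mem_nhds (hsub' q h1 h2))).differentiableAt (by simp)
    have hl : HasDerivAt (fun s : ℝ => ((q.1, s, q.2.2) : B1 n × ℝ × E n)) (0, 1, 0) q.2.1 :=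
      (hasDerivAt_const _ _).prodMk ((hasDerivAt_id _).prodMk (hasDerivAt_const _ _))
    have h4 := (hd.hasFDerivAt.comp_hasDerivAt q.2.1 hl).deriv
    rw [← h4]
    exact h3
  have hcont : ContinuousOn (fun x => (ψ ∘ sw) (D1 (closure Ω) ub x, ub x, x)) (closure Ω) :=
    hψ'.continuousOn.comp ((cont_D1 hΩ.ud hub.1.1).prodMk
      (hub.1.1.continuousOn.prodMk continuousOn_id))
      (fun x hx => hsub' _ (spacelike_lt hub.1 hx).le hx)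
  have hs := adm_closure hkn' hΩ hub.1.1 (fun x hx => spacelike_lt hub.1 hx) hcont
    (fun x hx => hpos' _ (spacelike_lt hub.1 hx).le hx) (fun x hx => by
      obtain ⟨κ, h1, h2, h3⟩ := hub.2.1 x hx
      have hx' := subset_closure hx
      refine ⟨adm_of_curv hΩ hub.1 hx' h1 h2, ?_⟩
      rw [SS_of_isCurv hΩ hx' (spacelike_lt hub.1 hx') h1]
      exact h3)
  obtain ⟨u, hu2, hus, hub', hreg, huniq⟩ := main_workH hk hkn h2k hΩ hch hD hU' hsub' hψ' hpos'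
    hmono' hub.1.1 hs hφ₁ (fun x hx => by rw [hub.2.2 x hx, hφe x hx])
  have hcurv : ∀ x ∈ closure Ω, ∃ κ, Q.IsCurv Ω u x κ ∧ Q.InGamma k κ ∧
      Q.sigma k κ = ψ (x, u x, Q.grad Ω u x) := fun x hx => by
    obtain ⟨κ, hκ⟩ := exists_isCurv hΩ hu2 hx (hus x hx).1.1
    refine ⟨κ, hκ, fun j h1 h2 => ?_, ?_⟩
    · rw [← SS_of_isCurv hΩ hx (hus x hx).1.1 hκ]; exact (hus x hx).1.2 j h1 h2
    · rw [← SS_of_isCurv hΩ hx (hus x hx).1.1 hκ]; exact (hus x hx).2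
  have hsp : Q.Spacelike Ω u := by
    refine ⟨hu2, ?_⟩
    obtain ⟨x₀, hx₀, hmax⟩ := hΩ.compact.exists_isMaxOn (hΩ.ne.mono subset_closure)
      (cont_D1 hΩ.ud hu2).norm
    exact ⟨_, (hus x₀ hx₀).1.1, fun x hx => by rw [grad_eq, norm_shp]; exact hmax hx⟩
  refine ⟨u, ⟨hsp, fun x hx => hcurv x (subset_closure hx), fun x hx => ?_⟩, fun x hx => ?_,
    fun α h0 h1 => holderC3_of_c3a hΩ (hreg α h0 h1), fun v hv => huniq v hv.1.1 (fun x hx => ?_)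
      (fun x hx => by rw [hv.2.2 x hx, hφe x hx])⟩
  · rw [hub' x hx, hφe x hx]
  · obtain ⟨κ, h1, h2, _⟩ := hcurv x hx
    exact ⟨κ, h1, h2⟩
  · obtain ⟨κ, h1, h2, h3⟩ := hv.2.1 x hx
    have hx' := subset_closure hx
    refine ⟨adm_of_curv hΩ hv.1 hx' h1 h2, ?_⟩
    rw [SS_of_isCurv hΩ hx' (spacelike_lt hv.1 hx') h1]
    exact h3

theorem main2H (hk : 2 ≤ k) (hkn : k ≤ n - 1) (h2k : n ≤ 2 * k ∨ k = 2)
    (hΩ : Q.IsSmoothDomain Ω) (hconv : Convex ℝ Ω)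
    (hadm : ∀ x₀ ∈ frontier Ω, ∃ κ, Q.IsBdryCurv Ω x₀ κ ∧ Q.InGamma (k - 1) κ)
    {ψ : E n × ℝ × E n → ℝ}
    (hψ : ContDiffOn ℝ ∞ ψ (closure Ω ×ˢ univ ×ˢ Metric.closedBall 0 1))
    (hpos : ∀ x ∈ closure Ω, ∀ z p, ‖p‖ ≤ 1 →
      0 < ψ (x, z, p) ∧ 0 ≤ deriv (fun s => ψ (x, s, p)) z)
    {φ : E n → ℝ} (hφ : ContDiffOn ℝ 4 φ (closure Ω)) (hφs : Q.Spacelike Ω φ)
    {ub : E n → ℝ} (hub : Q.IsSub k Ω ψ φ ub) :
    ∃ u : E n → ℝ, Q.IsSol k Ω ψ φ u ∧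
      (∀ x ∈ closure Ω, ∃ κ, Q.IsCurv Ω u x κ ∧ Q.InGamma k κ) ∧
      (∀ α : ℝ, 0 < α → α < 1 → Q.HolderC3 Ω α u) ∧
      ∀ v, Q.IsSol k Ω ψ φ v → EqOn v u (closure Ω) := by
  obtain ⟨Φ, Ψ, hch⟩ := exists_chart ⟨hΩ.1, hconv, hΩ.2.1.nonempty, hΩ.2.2.1⟩ hΩ.2.2.2
  obtain ⟨χ, hχ, e⟩ := exists_ext hch hψ
  obtain ⟨u, h1, h2, h3, h4⟩ := mainH n k hk hkn h2k Ω hΩ hconv hadm χ univ isOpen_univ
    (subset_univ _) hχ.contDiffOn (fun x hx z p hp => by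
      simp only [e x hx _ p hp]; exact hpos x hx z p hp) φ hφ hφs ub
    ⟨hub.1, fun x hx => by
      rw [e x (subset_closure hx) _ _ (grad_le hub.1 hx)]; exact hub.2.1 x hx, hub.2.2⟩
  exact ⟨u, isSol_congr (fun x hx z p hp => (e x hx z p hp).symm) h1, h2, h3,
    fun v hv => h4 v (isSol_congr e hv)⟩

end Pool.Agent.Mink.T
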